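import Mathlib

open Set Filter Topology
open scoped unitInterval

namespace Pool.Agent.Results.MP_17e614_gt.WeakDim

universe u

/-- `a` is homotopically unstable in `M`. -/
def Unstable {M : Type u} [MetricSpace M] (a : M) : Prop :=
  ∀ ε : ℝ, 0 < ε → ∃ h : M × I → M, Continuous h ∧ (∀ x, h (x, 0) = x) ∧
    (∀ x t, dist x (h (x, t)) < ε) ∧ ∀ x, h (x, 1) ≠ a

/-- Condition (H). -/
def CondH {M : Type u} [MetricSpace M] (a : M) : Prop :=
  ∃ f : M × I → M, Continuous f ∧ (∀ x, f (x, 0) = x) ∧ ∀ x t, t ≠ 0 → f (x, t) ≠ a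

/-- Condition (R). -/
def CondR {M : Type u} [MetricSpace M] (a : M) : Prop :=
  ∃ r : M × I → M × I, Continuous r ∧ (∀ p, (r p).2 = 0) ∧ (∀ x, r (x, 0) = (x, 0)) ∧
    r ⁻¹' {(a, 0)} = {(a, 0)}

/-- Weakly infinite-dimensional in the sense of Alexandroff: for every sequence of pairs of
disjoint closed sets there are partitions `L i = (G i ∪ H i)ᶜ` between them with empty
intersection. -/
def WID (X : Type u) [TopologicalSpace X] : Prop :=
  ∀ A B : ℕ → Set X, (∀ i, IsClosed (A i)) → (∀ i, IsClosed (B i)) →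
    (∀ i, Disjoint (A i) (B i)) →
    ∃ G H : ℕ → Set X, (∀ i, IsOpen (G i) ∧ IsOpen (H i) ∧ Disjoint (G i) (H i) ∧
      A i ⊆ G i ∧ B i ⊆ H i) ∧ ⋂ i, (G i ∪ H i)ᶜ = ∅

/-- Covering dimension at most `n`: every finite open cover has a finite open refinement in which
every point lies in at most `n + 1` members. -/
def DimLE (X : Type u) [TopologicalSpace X] (n : ℕ) : Prop :=
  ∀ 𝒰 : Set (Set X), 𝒰.Finite → (∀ U ∈ 𝒰, IsOpen U) → ⋃₀ 𝒰 = univ →
    ∃ 𝒱 : Set (Set X), 𝒱.Finite ∧ (∀ V ∈ 𝒱, IsOpen V ∧ ∃ U ∈ 𝒰, V ⊆ U) ∧ ⋃₀ 𝒱 = univ ∧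
      ∀ x, {V ∈ 𝒱 | x ∈ V}.ncard ≤ n + 1

/-- auxiliary form of `WID` -/
def WID' (X : Type u) [TopologicalSpace X] : Prop :=
  ∀ A B : ℕ → Set X, (∀ i, IsClosed (A i)) → (∀ i, IsClosed (B i)) →
    (∀ i, Disjoint (A i) (B i)) →
    ∃ G H : ℕ → Set X, (∀ i, IsOpen (G i) ∧ IsOpen (H i) ∧ Disjoint (G i) (H i) ∧
      Disjoint (G i) (B i) ∧ Disjoint (H i) (A i)) ∧ ∀ x, ∃ i, x ∈ G i ∪ H i

theorem WID.weak {X : Type u} [TopologicalSpace X] (h : WID X) : WID' X := by
  intro A B hA hB hAB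
  obtain ⟨G, H, hG, hc⟩ := h A B hA hB hAB
  refine ⟨G, H, fun i => ⟨(hG i).1, (hG i).2.1, (hG i).2.2.1, (hG i).2.2.1.mono_right (hG i).2.2.2.2,
    (hG i).2.2.1.symm.mono_right (hG i).2.2.2.1⟩, fun x => ?_⟩
  have : x ∉ ⋂ i, (G i ∪ H i)ᶜ := by rw [hc]; simp
  simpa only [mem_iInter, not_forall, mem_compl_iff, not_not] using this

theorem DimLE.weak {X : Type u} [MetricSpace X] {n : ℕ} (h : DimLE X n) : WID' X := by
  classical
  intro A B hA hB hAB
  let U : (Fin (n + 1) → Bool) → Set X := fun s => ⋂ i, if s i then (A i)ᶜ else (B i)ᶜ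
  obtain ⟨𝒱, hfin, hV, hcov, hord⟩ := h (range U) (finite_range U) (by
    rintro _ ⟨s, rfl⟩
    refine isOpen_iInter_of_finite fun i => ?_
    split_ifs
    exacts [(hA i).isOpen_compl, (hB i).isOpen_compl]) (by
    refine eq_univ_of_forall fun x => ⟨_, ⟨fun i => decide (x ∈ B i), rfl⟩, mem_iInter.2 fun i => ?_⟩
    by_cases hx : x ∈ B i
    · simpa [hx] using disjoint_right.1 (hAB i) hx
    · simp [hx])
  haveI : Fintype 𝒱 := hfin.fintype
  obtain ⟨φ, hφ⟩ := BumpCovering.exists_isSubordinate (isClosed_univ (X := X))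
    (fun V : 𝒱 => (V : Set X)) (fun V => (hV V V.2).1) (by
      intro x _
      have : x ∈ ⋃₀ 𝒱 := by rw [hcov]; trivial
      obtain ⟨V, hV, hx⟩ := this
      exact mem_iUnion.2 ⟨⟨V, hV⟩, hx⟩)
  let W : Finset 𝒱 → Set X := fun ρ => {x | ∀ V ∈ ρ, 0 < φ V x ∧ ∀ V', V' ∉ ρ → φ V' x < φ V x}
  have hW : ∀ ρ, IsOpen (W ρ) := by
    intro ρ
    have : W ρ = ⋂ V ∈ ρ, ({x | 0 < φ V x} ∩ ⋂ V', ⋂ (_ : V' ∉ ρ), {x | φ V' x < φ V x}) := by
      ext x; simp [W]
    rw [this]
    refine isOpen_biInter_finset fun V _ => (isOpen_lt continuous_const (φ V).continuous).inter ?_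
    exact isOpen_iInter_of_finite fun V' => isOpen_iInter_of_finite fun _ =>
      isOpen_lt (φ V').continuous (φ V).continuous
  have hWd : ∀ ρ τ : Finset 𝒱, ρ.card = τ.card → ∀ x ∈ W ρ, x ∈ W τ → ρ = τ := by
    intro ρ τ hc x hρ hτ
    by_contra hne
    have h1 : ¬ ρ ⊆ τ := fun h => hne (Finset.eq_of_subset_of_card_le h hc.ge)
    have h2 : ¬ τ ⊆ ρ := fun h => hne (Finset.eq_of_subset_of_card_le h hc.le).symm
    obtain ⟨V, hV1, hV2⟩ := Finset.not_subset.1 h1
    obtain ⟨V', hV1', hV2'⟩ := Finset.not_subset.1 h2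
    exact lt_asymm ((hρ V hV1).2 V' hV2') ((hτ V' hV1').2 V hV2)
  refine ⟨fun i => ⋃ ρ ∈ {ρ : Finset 𝒱 | ρ.card = i + 1 ∧ Disjoint (W ρ) (B i)}, W ρ,
    fun i => ⋃ ρ ∈ {ρ : Finset 𝒱 | ρ.card = i + 1 ∧ ¬ Disjoint (W ρ) (B i) ∧
      Disjoint (W ρ) (A i)}, W ρ, fun i => ⟨isOpen_biUnion fun ρ _ => hW ρ,
      isOpen_biUnion fun ρ _ => hW ρ, ?_, ?_, ?_⟩, fun x => ?_⟩
  · rw [disjoint_left]
    intro x hx hx'
    obtain ⟨ρ, hρ, hxρ⟩ := mem_iUnion₂.1 hx
    obtain ⟨τ, hτ, hxτ⟩ := mem_iUnion₂.1 hx'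
    obtain rfl := hWd ρ τ (hρ.1.trans hτ.1.symm) x hxρ hxτ
    exact hτ.2.1 hρ.2
  · exact disjoint_iUnion₂_left.2 fun ρ hρ => hρ.2
  · exact disjoint_iUnion₂_left.2 fun ρ hρ => hρ.2.2
  · obtain ⟨V₀, hV₀⟩ := φ.eventuallyEq_one' x trivial
    have h1 : φ V₀ x = 1 := hV₀.self_of_nhds
    let ρ : Finset 𝒱 := Finset.univ.filter fun V => φ V x = 1
    have hρ0 : V₀ ∈ ρ := by simp [ρ, h1]
    have hxρ : x ∈ W ρ := by
      intro V hVρ
      have h2 : φ V x = 1 := by simpa [ρ] using hVρ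
      refine ⟨by rw [h2]; exact one_pos, fun V' hV' => ?_⟩
      rw [h2]
      exact lt_of_le_of_ne (φ.le_one V' x) (by simpa [ρ] using hV')
    have hsub : ∀ τ : Finset 𝒱, ∀ V ∈ τ, W τ ⊆ V := fun τ V hVτ y hy =>
      hφ V (subset_tsupport _ (hy V hVτ).1.ne')
    have hcard : ρ.card ≤ n + 1 := by
      refine le_trans ?_ (hord x)
      rw [← ncard_coe_finset, ← ncard_image_of_injective _ Subtype.val_injective]
      refine ncard_le_ncard ?_ (hfin.subset (sep_subset _ _))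
      rintro _ ⟨V, hVρ, rfl⟩
      exact ⟨V.2, hsub ρ V hVρ hxρ⟩
    have hpos : 0 < ρ.card := Finset.card_pos.2 ⟨V₀, hρ0⟩
    obtain ⟨i, hi⟩ : ∃ i, ρ.card = i + 1 := ⟨ρ.card - 1, by omega⟩
    refine ⟨i, ?_⟩
    by_cases hB' : Disjoint (W ρ) (B i)
    · exact Or.inl (mem_iUnion₂.2 ⟨ρ, ⟨hi, hB'⟩, hxρ⟩)
    · refine Or.inr (mem_iUnion₂.2 ⟨ρ, ⟨hi, hB', ?_⟩, hxρ⟩)
      obtain ⟨_, ⟨s, rfl⟩, hs⟩ := (hV V₀ V₀.2).2
      have h3 := ((hsub ρ V₀ hρ0).trans hs).trans (iInter_subset _ (⟨i, by omega⟩ : Fin (n + 1)))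
      split_ifs at h3
      · exact subset_compl_iff_disjoint_right.1 h3
      · exact absurd (subset_compl_iff_disjoint_right.1 h3) hB'

theorem H_iff_R {M : Type u} [MetricSpace M] (a : M) : CondH a ↔ CondR a := by
  constructor
  · rintro ⟨f, hf, h0, hne⟩
    refine ⟨fun p => (f p, 0), by fun_prop, fun p => rfl, fun x => by simp [h0], ?_⟩
    ext ⟨x, t⟩
    simp only [mem_preimage, mem_singleton_iff, Prod.mk.injEq, and_true]
    constructor
    · intro h
      by_cases ht : t = 0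
      · subst ht; rw [h0] at h; exact ⟨h, rfl⟩
      · exact absurd h (hne x t ht)
    · rintro ⟨rfl, rfl⟩; exact h0 _
  · rintro ⟨r, hr, h2, h0, hp⟩
    refine ⟨fun p => (r p).1, by fun_prop, fun x => by simp [h0], fun x t ht h => ?_⟩
    have : (x, t) ∈ r ⁻¹' {(a, 0)} := by
      simp only [mem_preimage, mem_singleton_iff]
      exact Prod.ext h (h2 _)
    rw [hp] at this
    exact ht (congrArg Prod.snd this)

theorem unstable_of_H {M : Type u} [MetricSpace M] (a : M) (h : CondH a) : Unstable a := by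
  obtain ⟨f, hf, h0, hne⟩ := h
  intro ε hε
  -- choose a continuous `δ : M → (0,1]` with `dist x (f (x,s)) < ε` for `s ≤ δ x`
  have key : ∃ g : C(M, ℝ), ∀ x, g x ∈ {c : ℝ | 0 < c ∧ c ≤ 1 ∧
      ∀ s : I, (s : ℝ) ≤ c → dist x (f (x, s)) < ε} := by
    apply exists_continuous_forall_mem_convex_of_local_const
    · intro x
      apply OrdConnected.convex
      refine ⟨fun c hc d hd e he => ⟨lt_of_lt_of_le hc.1 he.1, he.2.trans hd.2.1,
        fun s hs => hd.2.2 s (hs.trans he.2)⟩⟩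
    · intro x
      have hc : Continuous fun p : M × I => dist p.1 (f p) := by fun_prop
      have : ∀ᶠ p in 𝓝 (x, (0 : I)), dist p.1 (f p) < ε := by
        apply hc.continuousAt.eventually_lt continuousAt_const
        simp [h0, hε]
      rw [nhds_prod_eq] at this
      obtain ⟨pa, hpa, pb, hpb, hab⟩ := eventually_prod_iff.1 this
      obtain ⟨η, hη, hb⟩ := Metric.eventually_nhds_iff.1 hpb
      refine ⟨min (η / 2) 1, hpa.mono fun y hy => ⟨by positivity, min_le_right _ _,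
        fun s hs => hab hy (hb ?_)⟩⟩
      have h1 : (s : ℝ) ≤ η / 2 := hs.trans (min_le_left _ _)
      rw [Subtype.dist_eq]
      simp only [Icc.coe_zero, dist_zero_right, Real.norm_eq_abs, abs_of_nonneg s.2.1]
      linarith
  obtain ⟨g, hg⟩ := key
  let g' : M → I := fun x => ⟨g x, (hg x).1.le, (hg x).2.1⟩
  have hg' : Continuous g' := g.continuous.subtype_mk _
  refine ⟨fun p => f (p.1, p.2 * g' p.1), ?_, fun x => by simp [h0], fun x t => ?_, fun x => ?_⟩
  · refine hf.comp (continuous_fst.prodMk ?_)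
    exact Continuous.subtype_mk (f := fun p : M × I => (p.2 : ℝ) * (g' p.1 : ℝ)) (by fun_prop) _
  · apply (hg x).2.2
    show (t : ℝ) * g x ≤ g x
    exact mul_le_of_le_one_left (hg x).1.le t.2.2
  · apply hne
    intro h
    have : ((1 : I) * g' x : I) = 0 := h
    rw [one_mul] at this
    have h2 : g x = 0 := congrArg Subtype.val this
    exact (hg x).1.ne' h2

section
variable {M : Type u} [MetricSpace M]

/-- iterate pushes along a word -/
def Y (H : ℕ × M × I → M) (p : ℕ → ℕ × I) (x : M) : ℕ → M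
  | 0 => x
  | j + 1 => H ((p j).1, Y H p x j, (p j).2)

theorem Y_congr (H : ℕ × M × I → M) (p q : ℕ → ℕ × I) (x : M) (n : ℕ)
    (h : ∀ j < n, p j = q j) : Y H p x n = Y H q x n := by
  induction n with
  | zero => rfl
  | succ n ih =>
    simp only [Y]
    rw [ih fun j hj => h j (by omega), h n (by omega)]

theorem Y_cont (H : ℕ × M × I → M) (hH : Continuous H) (n : ℕ) :
    Continuous fun z : M × (ℕ → ℕ × I) => Y H z.2 z.1 n := by
  induction n with
  | zero => exact continuous_fst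
  | succ n ih =>
    simp only [Y]
    refine hH.comp (Continuous.prodMk ?_ (ih.prodMk ?_))
    · exact continuous_fst.comp ((continuous_apply n).comp continuous_snd)
    · exact continuous_snd.comp ((continuous_apply n).comp continuous_snd)

theorem local_lower (H : ℕ × M × I → M) (hH : Continuous H) (a : M)
    (h1 : ∀ m x, H (m, x, 1) ≠ a) (B j : ℕ) (x : M) :
    ∃ δ : ℝ, 0 < δ ∧ ∀ᶠ x' in 𝓝 x, ∀ p : ℕ → ℕ × I, (∀ i ≤ j, (p i).1 ≤ B) → (p j).2 = 1 →
      δ ≤ dist (Y H p x' (j + 1)) a := by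
  let K : Set (ℕ → ℕ × I) := (univ.pi fun _ => (Iic B ×ˢ (univ : Set I))) ∩ {p | (p j).2 = 1}
  have hK : IsCompact K := by
    apply IsCompact.inter_right
    · exact isCompact_univ_pi fun _ => (finite_Iic B).isCompact.prod isCompact_univ
    · exact isClosed_eq (continuous_snd.comp (continuous_apply j)) continuous_const
  have hc : Continuous fun z : M × (ℕ → ℕ × I) => dist (Y H z.2 z.1 (j + 1)) a :=
    (Y_cont H hH _).dist continuous_const
  obtain ⟨δ, hδ, hle⟩ := hK.exists_forall_le' (f := fun p => dist (Y H p x (j + 1)) a) (a := 0)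
    (hc.comp (Continuous.prodMk_right x)).continuousOn (by
      intro p hp
      apply dist_pos.2
      simp only [Y]
      rw [hp.2]
      exact h1 _ _)
  refine ⟨δ / 2, by positivity, ?_⟩
  have := hK.eventually_forall_of_forall_eventually (x₀ := x)
    (P := fun x' p => δ / 2 < dist (Y H p x' (j + 1)) a) (by
      intro p hp
      apply continuousAt_const.eventually_lt hc.continuousAt
      have := hle p hp
      show δ / 2 < dist (Y H p x (j + 1)) a
      linarith)
  refine this.mono fun x' hx' p hp hp1 => ?_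
  let q : ℕ → ℕ × I := fun i => if i ≤ j then p i else (0, 0)
  have hq : q ∈ K := by
    refine ⟨fun i _ => ⟨?_, trivial⟩, ?_⟩
    · by_cases hi : i ≤ j
      · simp [q, hi, hp i hi]
      · simp [q, hi]
    · simp [q, hp1]
  have := hx' q hq
  rw [Y_congr H p q x' (j + 1) fun i hi => by simp [q, Nat.lt_succ_iff.1 hi]]
  exact this.le


def Q (H : ℕ × M × I → M) (a : M) (r : ℝ) (l : ℕ) (b : ℝ) (x : M) (n : ℕ) : Prop :=
  ((1 / 2 : ℝ) ^ n ≤ (1 / 2) ^ (l + 1) * (1 / (l + 1))) ∧ ((1 / 2 : ℝ) ^ n ≤ (1 / 2) ^ (l + 1) * r) ∧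
    ∀ (p : ℕ → ℕ × I) (j : ℕ), j < l → (∀ i ≤ j, ((p i).1 : ℝ) ≤ b) → (p j).2 = 1 →
      (1 / 2 : ℝ) ^ n ≤ (1 / 2) ^ (l + 1) * dist (Y H p x (j + 1)) a

theorem small_pow (c : ℝ) (hc : 0 < c) : ∃ N : ℕ, ∀ n ≥ N, (1 / 2 : ℝ) ^ n ≤ c := by
  obtain ⟨N, hN⟩ := exists_pow_lt_of_lt_one hc (by norm_num : (1 / 2 : ℝ) < 1)
  exact ⟨N, fun n hn => (pow_le_pow_of_le_one (by norm_num) (by norm_num) hn).trans hN.le⟩

theorem step (H : ℕ × M × I → M) (hH : Continuous H) (a : M)
    (h1 : ∀ m x, H (m, x, 1) ≠ a) (r : ℝ) (hr : 0 < r) (l : ℕ) (B : C(M, ℝ)) (K : Set M)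
    (hK : IsCompact K) :
    ∃ β : C(M, ℝ), (∀ x, B x ≤ β x) ∧ (∀ x, 0 ≤ β x) ∧
      (∀ x (n : ℕ), β x ≤ n → Q H a r l (B x) x n) ∧
      ∃ (c : ℕ) (O : Set M), IsOpen O ∧ K ⊆ O ∧ ∀ x ∈ O, β x = c := by
  have key : ∃ g : C(M, ℝ), ∀ x, g x ∈ {c : ℝ | B x ≤ c ∧ 0 ≤ c ∧
      ∀ n : ℕ, c ≤ n → Q H a r l (B x) x n} := by
    apply exists_continuous_forall_mem_convex_of_local_const
    · intro x
      apply OrdConnected.convex
      refine ⟨fun c hc d hd e he => ⟨hc.1.trans he.1, hc.2.1.trans he.1,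
        fun n hn => hc.2.2 n (he.1.trans hn)⟩⟩
    · intro x
      set b : ℕ := ⌈B x + 1⌉₊ with hb
      have hB : ∀ᶠ y in 𝓝 x, B y < b := by
        apply B.continuous.continuousAt.eventually_lt continuousAt_const
        have := Nat.le_ceil (B x + 1)
        rw [← hb] at this
        linarith
      choose δ hδ hev using fun j => local_lower H hH a h1 b j x
      have hall : ∀ᶠ y in 𝓝 x, ∀ j ∈ Finset.range l, ∀ p : ℕ → ℕ × I, (∀ i ≤ j, (p i).1 ≤ b) →
          (p j).2 = 1 → δ j ≤ dist (Y H p y (j + 1)) a :=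
        (eventually_all_finset _).2 fun j _ => hev j
      obtain ⟨N1, hN1⟩ := small_pow ((1 / 2) ^ (l + 1) * (1 / (l + 1))) (by positivity)
      obtain ⟨N2, hN2⟩ := small_pow ((1 / 2) ^ (l + 1) * r) (by positivity)
      choose N3 hN3 using fun j => small_pow ((1 / 2) ^ (l + 1) * δ j)
        (mul_pos (by positivity) (hδ j))
      refine ⟨((b + N1 + N2 + ∑ j ∈ Finset.range l, N3 j : ℕ) : ℝ), ?_⟩
      filter_upwards [hB, hall] with y hy1 hy2
      refine ⟨?_, by positivity, fun n hn => ?_⟩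
      · refine hy1.le.trans ?_
        exact_mod_cast (by omega)
      · have hn' : b + N1 + N2 + ∑ j ∈ Finset.range l, N3 j ≤ n := by exact_mod_cast hn
        refine ⟨hN1 n (by omega), hN2 n (by omega), fun p j hj hp hp1 => ?_⟩
        have hj' : j ∈ Finset.range l := Finset.mem_range.2 hj
        have h3 : N3 j ≤ ∑ j ∈ Finset.range l, N3 j :=
          Finset.single_le_sum (f := N3) (fun _ _ => Nat.zero_le _) hj'
        refine (hN3 j n (by omega)).trans ?_
        apply mul_le_mul_of_nonneg_left _ (by positivity)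
        apply hy2 j hj' p _ hp1
        intro i hi
        have := (hp i hi).trans hy1.le
        exact_mod_cast this
  obtain ⟨g, hg⟩ := key
  obtain ⟨C, hC⟩ := (hK.image g.continuous).bddAbove
  set c : ℕ := ⌈C + 1⌉₊ with hc
  refine ⟨⟨fun x => max (g x) c, by fun_prop⟩, fun x => (hg x).1.trans (le_max_left _ _),
    fun x => (hg x).2.1.trans (le_max_left _ _),
    fun x n hn => (hg x).2.2 n ((le_max_left _ _).trans hn), c, {x | g x < c},
    isOpen_lt g.continuous continuous_const, fun x hx => ?_, fun x hx => ?_⟩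
  · have h2 := hC (mem_image_of_mem g hx)
    have := Nat.le_ceil (C + 1)
    rw [← hc] at this
    show g x < c
    linarith
  · exact max_eq_right (le_of_lt hx)

theorem ceil_locally_const {X : Type*} [TopologicalSpace X] (f : X → ℝ) (hf : Continuous f)
    (x : X) (h0 : 0 ≤ f x) (hx : ∀ n : ℕ, f x ≠ n) : ∀ᶠ y in 𝓝 x, ⌈f y⌉₊ = ⌈f x⌉₊ := by
  have hpos : 0 < f x := lt_of_le_of_ne h0 (by simpa using (hx 0).symm)
  have hne : ⌈f x⌉₊ ≠ 0 := (Nat.ceil_pos.2 hpos).ne'
  obtain ⟨h1, h2⟩ := (Nat.ceil_eq_iff hne).1 rfl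
  have h3 : f x < ⌈f x⌉₊ := lt_of_le_of_ne h2 (hx _)
  filter_upwards [continuousAt_const.eventually_lt hf.continuousAt h1,
    hf.continuousAt.eventually_lt continuousAt_const h3] with y hy1 hy2
  exact (Nat.ceil_eq_iff hne).2 ⟨hy1, hy2.le⟩

theorem extend_open (S : Set M) (G H : Set S) (hG : IsOpen G) (hH : IsOpen H)
    (hd : Disjoint G H) : ∃ U V : Set M, IsOpen U ∧ IsOpen V ∧ Disjoint U V ∧
      (∀ x ∈ G, x.1 ∈ U) ∧ ∀ x ∈ H, x.1 ∈ V := by
  have aux : ∀ G H : Set S, IsOpen H → Disjoint G H →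
      Disjoint (closure (Subtype.val '' G)) (Subtype.val '' H) := by
    intro G H hH hd
    obtain ⟨O, hO, rfl⟩ := isOpen_induced_iff.1 hH
    have : Disjoint (Subtype.val '' G) O := by
      rw [disjoint_left]
      rintro _ ⟨x, hx, rfl⟩ hxO
      exact disjoint_left.1 hd hx hxO
    exact (this.closure_left hO).mono_right (image_preimage_subset _ _)
  have := CompletelyNormalSpace.completely_normal (aux G H hH hd) (aux H G hG hd.symm).symm
  obtain ⟨U, V, hU, hV, hGU, hHV, hUV⟩ := separatedNhds_iff_disjoint.2 this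
  exact ⟨U, V, hU, hV, hUV, fun x hx => hGU (mem_image_of_mem _ hx),
    fun x hx => hHV (mem_image_of_mem _ hx)⟩

theorem tele (y : ℕ → M) (c : ℝ) (hc : 0 < c) (j : ℕ)
    (h : ∀ l ≥ j, dist (y l) (y (l + 1)) ≤ (1 / 2) ^ (l + 1) * c) (n : ℕ) (hn : j ≤ n) :
    dist (y j) (y n) < c := by
  have : dist (y j) (y n) ≤ c * (1 - (1 / 2) ^ n) := by
    induction n, hn using Nat.le_induction with
    | base =>
      rw [dist_self]
      apply mul_nonneg hc.le
      have : (1 / 2 : ℝ) ^ j ≤ 1 := pow_le_one₀ (by norm_num) (by norm_num)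
      linarith
    | succ n hn ih =>
      have h2 := h n hn
      have h3 := dist_triangle (y j) (y n) (y (n + 1))
      rw [pow_succ] at h2 ⊢
      nlinarith
  have h2 : 0 < c * (1 / 2 : ℝ) ^ n := by positivity
  nlinarith

/-- labels: the combinatorial heart -/
theorem labels (H : ℕ × M × I → M) (hH : Continuous H) (a : M)
    (h1 : ∀ m x, H (m, x, 1) ≠ a) (r : ℝ) (hr : 0 < r) (Z : ℕ → Set M)
    (hZ : ∀ k, IsCompact (Z k) ∨ WID' (Z k)) :
    ∃ (V : ℕ → Set M) (m : ℕ → M → ℕ) (B : ℕ → M → ℝ), (∀ l, IsOpen (V l)) ∧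
      (∀ l, ∀ x ∈ V l, ∀ᶠ y in 𝓝 x, m l y = m l x) ∧
      (∀ l x, Q H a r l (B l x) x (m l x)) ∧ (∀ l x, ∀ i < l, (m i x : ℝ) ≤ B l x) ∧
      ∀ k, ∀ x ∈ Z k, ∀ n, ∃ l ≥ n, x ∈ V l := by
  classical
  let K : ℕ → Set M := fun k => if IsCompact (Z k) then Z k else ∅
  have hK : ∀ k, IsCompact (K k) := by
    intro k
    by_cases h : IsCompact (Z k)
    · simp [K, h]
    · simp [K, h]
  choose β hβB hβ0 hβQ c O hO hKO hOc using fun l B =>
    step H hH a h1 r hr l B (K (Nat.unpair (Nat.unpair l).1).1) (hK _)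
  let B : ℕ → C(M, ℝ) := fun l => Nat.rec 0 (fun l b => β l b + ContinuousMap.const M 2) l
  have hBs : ∀ l x, B (l + 1) x = β l (B l) x + 2 := fun l x => rfl
  have hBmono : ∀ x, Monotone fun l => B l x := by
    intro x
    apply monotone_nat_of_le_succ
    intro l
    rw [hBs]
    have := hβB l (B l) x
    linarith
  let A : ℕ → Set M := fun l => β l (B l) ⁻¹' range (Nat.cast : ℕ → ℝ)
  let A' : ℕ → Set M := fun l => (fun x => β l (B l) x + 1 / 2) ⁻¹' range (Nat.cast : ℕ → ℝ)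
  have hA : ∀ l, IsClosed (A l) := fun l =>
    Nat.isClosedEmbedding_coe_real.isClosed_range.preimage (β l (B l)).continuous
  have hA' : ∀ l, IsClosed (A' l) := fun l =>
    Nat.isClosedEmbedding_coe_real.isClosed_range.preimage (by fun_prop)
  have hAA : ∀ l, Disjoint (A l) (A' l) := by
    intro l
    rw [disjoint_left]
    rintro x ⟨n, hn⟩ ⟨n', hn'⟩
    beta_reduce at hn'
    rw [← hn] at hn'
    have : (2 * n' : ℝ) = 2 * n + 1 := by linarith
    have : 2 * n' = 2 * n + 1 := by exact_mod_cast this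
    omega
  have hGH : ∀ k, ∃ G G' : ℕ → Set M, (∀ i, IsOpen (G i) ∧ IsOpen (G' i) ∧ Disjoint (G i) (G' i) ∧
      Disjoint (G i) (A' (Nat.pair k i)) ∧ Disjoint (G' i) (A (Nat.pair k i))) ∧
      ∀ x ∈ Z (Nat.unpair k).1, ∃ i, x ∈ G i ∪ G' i := by
    intro k
    by_cases h : IsCompact (Z (Nat.unpair k).1)
    · refine ⟨fun i => O (Nat.pair k i) (B (Nat.pair k i)), fun _ => ∅, fun i =>
        ⟨hO _ _, isOpen_empty, by simp, ?_, by simp⟩, fun x hx => ⟨0, Or.inl ?_⟩⟩
      · have : O (Nat.pair k i) (B (Nat.pair k i)) ⊆ A (Nat.pair k i) :=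
          fun x hx => ⟨_, (hOc _ _ x hx).symm⟩
        exact (hAA (Nat.pair k i)).mono_left this
      · apply hKO
        simpa [K, h] using hx
    · have hw := (hZ (Nat.unpair k).1).resolve_left h
      obtain ⟨G, G', hG, hcov⟩ := hw (fun i => Subtype.val ⁻¹' A (Nat.pair k i))
        (fun i => Subtype.val ⁻¹' A' (Nat.pair k i))
        (fun i => (hA _).preimage continuous_subtype_val)
        (fun i => (hA' _).preimage continuous_subtype_val)
        (fun i => (hAA _).preimage _)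
      choose U U' hU hU' hUU hGU hGU' using fun i =>
        extend_open _ (G i) (G' i) (hG i).1 (hG i).2.1 (hG i).2.2.1
      refine ⟨fun i => U i \ A' (Nat.pair k i), fun i => U' i \ A (Nat.pair k i), fun i =>
        ⟨(hU i).sdiff (hA' _), (hU' i).sdiff (hA _), (hUU i).mono diff_subset diff_subset,
          disjoint_sdiff_left, disjoint_sdiff_left⟩, fun x hx => ?_⟩
      obtain ⟨i, hi | hi⟩ := hcov ⟨x, hx⟩
      · exact ⟨i, Or.inl ⟨hGU i _ hi, fun h' => disjoint_left.1 (hG i).2.2.2.1 hi h'⟩⟩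
      · exact ⟨i, Or.inr ⟨hGU' i _ hi, fun h' => disjoint_left.1 (hG i).2.2.2.2 hi h'⟩⟩
  choose G G' hG hcov using hGH
  let g : ℕ → Set M := fun l => G (Nat.unpair l).1 (Nat.unpair l).2
  let g' : ℕ → Set M := fun l => G' (Nat.unpair l).1 (Nat.unpair l).2
  have hg : ∀ l, IsOpen (g l) ∧ IsOpen (g' l) ∧ Disjoint (g l) (g' l) ∧
      Disjoint (g l) (A' l) ∧ Disjoint (g' l) (A l) := by
    intro l
    have := hG (Nat.unpair l).1 (Nat.unpair l).2
    rwa [Nat.pair_unpair] at this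
  let m : ℕ → M → ℕ := fun l x =>
    if x ∈ g l then ⌈β l (B l) x + 1 / 2⌉₊ else ⌈β l (B l) x⌉₊
  have hm1 : ∀ l x, β l (B l) x ≤ m l x := by
    intro l x
    simp only [m]
    split_ifs
    · have := Nat.le_ceil (β l (B l) x + 1 / 2)
      linarith
    · exact Nat.le_ceil _
  have hm2 : ∀ l x, (m l x : ℝ) ≤ B (l + 1) x := by
    intro l x
    have h0 := hβ0 l (B l) x
    rw [hBs]
    simp only [m]
    split_ifs
    · have := Nat.ceil_lt_add_one (a := β l (B l) x + 1 / 2) (by linarith)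
      linarith
    · have := Nat.ceil_lt_add_one h0
      linarith
  refine ⟨fun l => g l ∪ g' l, m, fun l x => B l x, fun l => (hg l).1.union (hg l).2.1,
    fun l x hx => ?_, fun l x => hβQ l (B l) x _ (hm1 l x),
    fun l x i hi => (hm2 i x).trans (hBmono x hi), fun k x hx n => ?_⟩
  · have h0 := hβ0 l (B l) x
    rcases hx with hx | hx
    · filter_upwards [(hg l).1.mem_nhds hx, ceil_locally_const (fun x => β l (B l) x + 1 / 2)
        (by fun_prop) x (by linarith) fun n hn =>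
          disjoint_left.1 (hg l).2.2.2.1 hx ⟨n, hn.symm⟩] with y hy1 hy2
      simp only [m, if_pos hy1, if_pos hx]
      exact hy2
    · filter_upwards [(hg l).2.1.mem_nhds hx, ceil_locally_const (β l (B l))
        (β l (B l)).continuous x h0 fun n hn =>
          disjoint_left.1 (hg l).2.2.2.2 hx ⟨n, hn.symm⟩] with y hy1 hy2
      simp only [m, if_neg (disjoint_right.1 (hg l).2.2.1 hy1),
        if_neg (disjoint_right.1 (hg l).2.2.1 hx)]
      exact hy2
  · obtain ⟨i, hi⟩ := hcov (Nat.pair k n) x (by simpa using hx)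
    refine ⟨Nat.pair (Nat.pair k n) i, (Nat.right_le_pair k n).trans (Nat.left_le_pair _ _), ?_⟩
    simpa [g, g'] using hi


theorem H_of_unstable (a : M) (hu : Unstable a) (Z : ℕ → Set M) (hZa : (⋃ k, Z k) ∈ 𝓝 a)
    (hZ : ∀ k, IsCompact (Z k) ∨ WID' (Z k)) : CondH a := by
  classical
  choose h hh h0 hd h1 using fun m : ℕ => hu ((1 / 2) ^ m) (by positivity)
  let H : ℕ × M × I → M := fun z => h z.1 z.2
  have hH : Continuous H := continuous_prod_of_discrete_left.2 hh
  obtain ⟨r, hr, hball⟩ := Metric.nhds_basis_closedBall.mem_iff.1 hZa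
  obtain ⟨V, m, B, hV, hm, hQ, hmB, hcov⟩ := labels H hH a h1 r hr Z hZ
  let W := {w : M × I // w.2 ≠ 0}
  let U : ℕ → Set W := fun l => {w | w.1.1 ∈ V l ∧ 1 / ((l : ℝ) + 1) < (w.1.2 : ℝ)}
  have hU : ∀ l, IsOpen (U l) := fun l =>
    ((hV l).preimage (continuous_fst.comp continuous_subtype_val)).inter
      (isOpen_lt continuous_const
        (continuous_subtype_val.comp (continuous_snd.comp continuous_subtype_val)))
  let S : Set W := {w | w.1.1 ∈ Metric.closedBall a r}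
  have hS : IsClosed S :=
    Metric.isClosed_closedBall.preimage (continuous_fst.comp continuous_subtype_val)
  have hpos : ∀ w : W, 0 < (w.1.2 : ℝ) := fun w =>
    lt_of_le_of_ne w.1.2.2.1 fun h => w.2 (Subtype.ext h.symm)
  have hSU : S ⊆ ⋃ l, U l := by
    intro w hw
    obtain ⟨k, hk⟩ := mem_iUnion.1 (hball hw)
    obtain ⟨n, hn⟩ := exists_nat_one_div_lt (hpos w)
    obtain ⟨l, hl, hx⟩ := hcov k _ hk n
    refine mem_iUnion.2 ⟨l, hx, lt_of_le_of_lt ?_ hn⟩
    apply one_div_le_one_div_of_le (by positivity)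
    have : (n : ℝ) ≤ l := by exact_mod_cast hl
    linarith
  obtain ⟨φ, hφ⟩ := BumpCovering.exists_isSubordinate hS U hU hSU
  let u : ℕ → W → I := fun l w => ⟨φ l w, φ.nonneg l w, φ.le_one l w⟩
  have hu : ∀ l, Continuous (u l) := fun l => (φ l).continuous.subtype_mk _
  let p : W → ℕ → ℕ × I := fun w l => (m l w.1.1, u l w)
  let y : ℕ → W → M := fun n w => Y H (p w) w.1.1 n
  have hys : ∀ n w, y (n + 1) w = h (m n w.1.1) (y n w, u n w) := fun n w => rfl
  have hy0 : ∀ n w, φ n w = 0 → y (n + 1) w = y n w := by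
    intro n w hw
    rw [hys, show u n w = 0 from Subtype.ext hw, h0]
  have hyc : ∀ n, Continuous (y n) := by
    intro n
    induction n with
    | zero => exact continuous_fst.comp continuous_subtype_val
    | succ n ih =>
      rw [continuous_iff_continuousAt]
      intro w
      by_cases hw : w ∈ tsupport (φ n)
      · have h2 := (hφ n hw).1
        have h3 : ∀ᶠ w' : W in 𝓝 w, m n w'.1.1 = m n w.1.1 :=
          (continuous_fst.comp continuous_subtype_val).continuousAt.eventually (hm n _ h2)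
        have h4 : Continuous fun w' : W => h (m n w.1.1) (y n w', u n w') :=
          (hh _).comp (ih.prodMk (hu n))
        refine h4.continuousAt.congr (h3.mono fun w' hw' => ?_)
        beta_reduce
        rw [hys, hw']
      · refine ih.continuousAt.congr ?_
        filter_upwards [notMem_tsupport_iff_eventuallyEq.1 hw] with w' hw'
        exact (hy0 n w' hw').symm
  have hlf : LocallyFinite fun n => {w | y (n + 1) w ≠ y n w} :=
    φ.locallyFinite.subset fun n w hw h0 => hw (hy0 n w h0)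
  obtain ⟨F, hF⟩ := hlf.exists_forall_eventually_atTop_eventuallyEq
  have hFc : Continuous F := by
    rw [continuous_iff_continuousAt]
    intro w
    obtain ⟨n, hn⟩ := (hF w).exists
    exact (hyc n).continuousAt.congr hn
  have hFn : ∀ w j, ∃ n ≥ j, F w = y n w := by
    intro w j
    obtain ⟨n, hn, hj⟩ := ((hF w).and (eventually_ge_atTop j)).exists
    exact ⟨n, hj, hn.self_of_nhds.symm⟩
  have hstep : ∀ n w, dist (y n w) (y (n + 1) w) ≤ (1 / 2) ^ (m n w.1.1) := fun n w =>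
    (hd _ _ _).le
  have hFt : ∀ w : W, dist w.1.1 (F w) < w.1.2 := by
    intro w
    obtain ⟨n, -, hn⟩ := hFn w 0
    rw [hn]
    refine tele (fun n => y n w) _ (hpos w) 0 (fun l _ => ?_) n (Nat.zero_le _)
    by_cases hw : φ l w = 0
    · rw [hy0 l w hw, dist_self]
      have := hpos w
      positivity
    · have h2 := (hφ l (subset_tsupport _ hw)).2
      refine (hstep l w).trans ((hQ l _).1.trans ?_)
      exact mul_le_mul_of_nonneg_left h2.le (by positivity)
  have hFa : ∀ w : W, F w ≠ a := by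
    intro w hw
    by_cases hwS : w ∈ S
    · obtain ⟨j, hj⟩ := φ.eventuallyEq_one' w hwS
      have hj1 : u j w = 1 := Subtype.ext hj.self_of_nhds
      obtain ⟨n, hn, hFw⟩ := hFn w (j + 1)
      have hne : y (j + 1) w ≠ a := by
        rw [hys, hj1]; exact h1 _ _
      have := tele (fun n => y n w) _ (dist_pos.2 hne) (j + 1) (fun l hl =>
        (hstep l w).trans ((hQ l _).2.2 (p w) j hl
          (fun i hi => hmB l _ i (by omega)) hj1)) n hn
      rw [← hFw, hw] at this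
      exact lt_irrefl _ this
    · obtain ⟨n, -, hn⟩ := hFn w 0
      have := tele (fun n => y n w) _ hr 0 (fun l _ => (hstep l w).trans (hQ l _).2.1) n
        (Nat.zero_le _)
      rw [← hn, hw] at this
      exact hwS this.le
  let f : M × I → M := fun w => if hw : w.2 ≠ 0 then F ⟨w, hw⟩ else w.1
  have hfd : ∀ w, dist w.1 (f w) ≤ w.2 := by
    intro w
    by_cases hw : w.2 ≠ 0
    · simp only [f, dif_pos hw]; exact (hFt ⟨w, hw⟩).le
    · simp only [f, dif_neg hw, dist_self]; exact w.2.2.1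
  refine ⟨f, ?_, fun x => by simp [f], fun x t ht => ?_⟩
  · rw [continuous_iff_continuousAt]
    intro w
    by_cases hw : w.2 ≠ 0
    · have ho : IsOpen {w : M × I | w.2 ≠ 0} := isOpen_ne_fun continuous_snd continuous_const
      have : ContinuousOn f {w : M × I | w.2 ≠ 0} := by
        rw [continuousOn_iff_continuous_restrict]
        refine hFc.congr fun w => ?_
        have hw : w.1.2 ≠ 0 := w.2
        simp only [restrict_apply, f, dif_pos hw]
        rfl
      exact this.continuousAt (ho.mem_nhds hw)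
    · have hfw : f w = w.1 := by simp only [f, dif_neg hw]
      rw [ContinuousAt, hfw]
      refine continuous_fst.continuousAt.congr_dist ?_
      have ht : Tendsto (fun w' : M × I => (w'.2 : ℝ)) (𝓝 w) (𝓝 (w.2 : ℝ)) :=
        (continuous_subtype_val.comp continuous_snd).continuousAt
      rw [not_not.1 hw] at ht
      exact squeeze_zero (fun _ => dist_nonneg) hfd ht
  · simp only [f, dif_pos ht]
    exact hFa _

end

theorem result (M : Type u) [MetricSpace M] (a : M) :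
    (CondH a ↔ CondR a) ∧ (CondH a → Unstable a) ∧
    ((∃ Z : ℕ → Set M, (⋃ k, Z k) ∈ 𝓝 a ∧
        ∀ k, IsCompact (Z k) ∨ (∃ n, DimLE (Z k) n) ∨ WID (Z k)) →
      (Unstable a ↔ CondH a) ∧ (Unstable a ↔ CondR a)) := by
  refine ⟨H_iff_R a, unstable_of_H a, fun ⟨Z, h1, h2⟩ => ?_⟩
  have : Unstable a ↔ CondH a := ⟨fun h => H_of_unstable a h Z h1 fun k =>
    (h2 k).imp_right fun h => h.elim (fun ⟨_, h⟩ => h.weak) WID.weak, unstable_of_H a⟩
  exact ⟨this, this.trans (H_iff_R a)⟩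

end Pool.Agent.Results.MP_17e614_gt.WeakDim
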